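import Mathlib

set_option autoImplicit false

/-! # Mixed differences of powers -/

namespace Pool.Agent.KS6_67.PC

open Finset

variable {R : Type} [CommRing R]

/-- the mixed difference `Δ_{d 0} ... Δ_{d (k-1)} f (x)` -/
def md {A : Type} [AddCommGroup A] (f : R → A) : (k : ℕ) → (Fin k → R) → R → A
  | 0, _, x => f x
  | k + 1, d, x => md f k (fun i => d i.succ) (x + d 0) - md f k (fun i => d i.succ) x

section
variable {A B : Type} [AddCommGroup A] [AddCommGroup B]

lemma md_shift (f : R → A) (a : R) : ∀ (k : ℕ) (d : Fin k → R) (x : R),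
    md f k d (x + a) = md (fun y => f (y + a)) k d x
  | 0, _, _ => rfl
  | k + 1, d, x => by
    rw [md, md, ← md_shift f a k, ← md_shift f a k]
    congr 2
    ring

lemma md_add (f g : R → A) : ∀ (k : ℕ) (d : Fin k → R) (x : R),
    md (fun y => f y + g y) k d x = md f k d x + md g k d x
  | 0, _, _ => rfl
  | k + 1, d, x => by
    rw [md, md, md, md_add f g k, md_add f g k]
    abel

lemma md_sub (f g : R → A) : ∀ (k : ℕ) (d : Fin k → R) (x : R),
    md (fun y => f y - g y) k d x = md f k d x - md g k d x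
  | 0, _, _ => rfl
  | k + 1, d, x => by
    rw [md, md, md, md_sub f g k, md_sub f g k]
    abel

lemma md_hom (φ : A →+ B) (f : R → A) : ∀ (k : ℕ) (d : Fin k → R) (x : R),
    md (fun y => φ (f y)) k d x = φ (md f k d x)
  | 0, _, _ => rfl
  | k + 1, d, x => by
    rw [md, md, md_hom φ f k, md_hom φ f k, map_sub]

lemma md_const (v : A) (k : ℕ) (d : Fin (k + 1) → R) (x : R) :
    md (fun _ => v) (k + 1) d x = 0 := by
  have : ∀ (k : ℕ) (d : Fin k → R) (x y : R),
      md (fun _ : R => v) k d x = md (fun _ => v) k d y := by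
    intro k
    induction k with
    | zero => intro _ _ _; rfl
    | succ k ih =>
      intro d x y
      rw [md, md, ih _ (x + d 0) (y + d 0), ih _ x y]
  rw [md, this k _ (x + d 0) x, sub_self]

lemma md_congr (f g : R → A) : ∀ (k : ℕ) (d : Fin k → R) (x : R),
    (∀ S : Finset (Fin k), f (x + ∑ i ∈ S, d i) = g (x + ∑ i ∈ S, d i)) →
      md f k d x = md g k d x
  | 0, _, x, h => by
    have := h ∅
    rw [Finset.sum_empty, add_zero] at this
    exact this
  | k + 1, d, x, h => by
    rw [md, md, md_congr f g k _ (x + d 0), md_congr f g k _ x]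
    · intro S
      have := h (S.map (Fin.succEmb k))
      rw [Finset.sum_map] at this
      simpa using this
    · intro S
      have := h (Finset.cons 0 (S.map (Fin.succEmb k)) (by simp))
      rw [Finset.sum_cons, Finset.sum_map] at this
      simpa [add_assoc] using this

end

/-- mixed differences of powers -/
lemma md_pow : ∀ (k j : ℕ) (d : Fin k → R) (x : R), j ≤ k →
    md (fun y : R => y ^ j) k d x = if j = k then (k.factorial : R) * ∏ i, d i else 0
  | 0, j, d, x, hj => by
    obtain rfl : j = 0 := by omega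
    simp [md]
  | k + 1, j, d, x, hj => by
    have h1 : md (fun y : R => y ^ j) (k + 1) d x =
        ∑ i ∈ range j, md (fun y : R => y ^ i) k (fun i => d i.succ) x *
          (d 0 ^ (j - i) * (j.choose i : R)) := by
      rw [md, md_shift, ← md_sub]
      have h2 : (fun y : R => (y + d 0) ^ j - y ^ j) =
          fun y => ∑ i ∈ range j, y ^ i * (d 0 ^ (j - i) * (j.choose i : R)) := by
        funext y
        rw [add_pow, sum_range_succ]
        simp [mul_assoc]
      rw [h2]
      clear h2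
      have h3 : ∀ s : Finset ℕ, md (fun y : R => ∑ i ∈ s, y ^ i * (d 0 ^ (j - i) * (j.choose i : R)))
          k (fun i => d i.succ) x = ∑ i ∈ s, md (fun y : R => y ^ i) k (fun i => d i.succ) x *
          (d 0 ^ (j - i) * (j.choose i : R)) := by
        intro s
        classical
        induction s using Finset.induction_on with
        | empty =>
          simp only [Finset.sum_empty]
          have := md_sub (fun _ : R => (0 : R)) (fun _ : R => (0 : R)) k (fun i => d i.succ) x
          simpa using this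
        | insert a s ha ih =>
          simp only [Finset.sum_insert ha]
          rw [md_add, ih]
          congr 1
          exact md_hom (AddMonoidHom.mulRight (d 0 ^ (j - a) * (j.choose a : R))) (fun y : R => y ^ a)
            k (fun i => d i.succ) x
      exact h3 _
    rw [h1]
    have h4 : ∀ i ∈ range j, md (fun y : R => y ^ i) k (fun i => d i.succ) x =
        if i = k then (k.factorial : R) * ∏ i, d (Fin.succ i) else 0 := by
      intro i hi
      exact md_pow k i _ x (by have := mem_range.1 hi; omega)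
    rw [Finset.sum_congr rfl fun i hi => by rw [h4 i hi]]
    by_cases hjk : j = k + 1
    · subst hjk
      rw [if_pos rfl, sum_range_succ, Finset.sum_eq_zero]
      · rw [if_pos rfl, Fin.prod_univ_succ, Nat.factorial_succ]
        simp only [Nat.choose_succ_self_right, Nat.add_sub_cancel_left, pow_one]
        push_cast
        ring
      · intro i hi
        rw [if_neg (by have := mem_range.1 hi; omega), zero_mul]
    · rw [if_neg hjk]
      refine Finset.sum_eq_zero fun i hi => ?_
      rw [if_neg (by have := mem_range.1 hi; omega), zero_mul]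

/-- bounds for real-valued mixed differences -/
lemma md_bound_rat (f : R → ℚ) (h0 : ∀ y, 0 ≤ f y) (h1 : ∀ y, f y < 1) :
    ∀ (k : ℕ) (d : Fin (k + 1) → R) (x : R), |md f (k + 1) d x| < 2 ^ k
  | 0, d, x => by
    rw [md, md, md, abs_lt]
    have := h0 x; have := h1 x; have := h0 (x + d 0); have := h1 (x + d 0)
    constructor <;> norm_num <;> linarith
  | k + 1, d, x => by
    rw [md]
    have a := abs_lt.1 (md_bound_rat f h0 h1 k (fun i => d i.succ) (x + d 0))
    have b := abs_lt.1 (md_bound_rat f h0 h1 k (fun i => d i.succ) x)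
    rw [abs_lt, pow_succ]
    constructor <;> linarith [a.1, a.2, b.1, b.2]

/-- bounds for integer-valued mixed differences -/
lemma md_bound_int (f : R → ℤ) (L : ℤ) (h0 : ∀ y, 0 ≤ f y) (h1 : ∀ y, f y ≤ L) :
    ∀ (k : ℕ) (d : Fin (k + 1) → R) (x : R), |md f (k + 1) d x| ≤ 2 ^ k * L
  | 0, d, x => by
    rw [md, md, md, abs_le]
    have := h0 x; have := h1 x; have := h0 (x + d 0); have := h1 (x + d 0)
    constructor <;> simp <;> linarith
  | k + 1, d, x => by
    rw [md]
    have a := abs_le.1 (md_bound_int f L h0 h1 k (fun i => d i.succ) (x + d 0))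
    have b := abs_le.1 (md_bound_int f L h0 h1 k (fun i => d i.succ) x)
    rw [abs_le, pow_succ]
    constructor <;> linarith [a.1, a.2, b.1, b.2]

/-- **Characteristic 0.** -/
theorem char_zero {R : Type} [CommRing R] [Algebra ℚ R] {l : R} (hl : l ≠ 0) (k : ℕ) :
    ∃ c : R → ZMod (2 ^ (k + 1)), ∀ (x : R) (d : Fin (k + 1) → R), ∏ i, d i = l →
      ¬ ∀ S : Finset (Fin (k + 1)), c (x + ∑ i ∈ S, d i) = c x := by
  obtain ⟨h, hh⟩ : ∃ h : R →ₗ[ℚ] ℚ, h (((k + 1).factorial : R) * l) = 2 ^ k := by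
    have h1 : ((k + 1).factorial : R) * l ≠ 0 := by
      intro h
      have h2 : ((k + 1).factorial : ℚ) • l = 0 := by
        rw [Algebra.smul_def]
        simpa using h
      rcases smul_eq_zero.1 h2 with h3 | h3
      · exact (Nat.factorial_ne_zero _) (by exact_mod_cast h3)
      · exact hl h3
    have h2 : ∃ φ : Module.Dual ℚ R, φ (((k + 1).factorial : R) * l) ≠ 0 := by
      by_contra hcon
      push Not at hcon
      exact h1 ((Module.forall_dual_apply_eq_zero_iff ℚ _).1 hcon)
    obtain ⟨φ, hφ⟩ := h2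
    refine ⟨(2 ^ k / φ (((k + 1).factorial : R) * l)) • φ, ?_⟩
    rw [LinearMap.smul_apply, smul_eq_mul]
    field_simp
  refine ⟨fun y => ((⌊h (y ^ (k + 1))⌋ : ℤ) : ZMod (2 ^ (k + 1))), fun x d hd hS => ?_⟩
  set g : R → ℤ := fun y => ⌊h (y ^ (k + 1))⌋ with hg
  -- the mixed difference of `g` is divisible by `2 ^ (k + 1)`
  have e1 : ((md g (k + 1) d x : ℤ) : ZMod (2 ^ (k + 1))) = 0 := by
    have h1 := md_hom (Int.castAddHom (ZMod (2 ^ (k + 1)))) g (k + 1) d x
    simp only [Int.coe_castAddHom] at h1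
    rw [← h1, md_congr _ (fun _ => ((g x : ℤ) : ZMod (2 ^ (k + 1)))) (k + 1) d x hS, md_const]
  have e2 : ((md g (k + 1) d x : ℤ) : ℚ) = 2 ^ k - md (fun y => Int.fract (h (y ^ (k + 1)))) (k + 1) d x := by
    have h1 := md_hom (Int.castAddHom ℚ) g (k + 1) d x
    simp only [Int.coe_castAddHom] at h1
    rw [← h1, eq_sub_iff_add_eq, ← md_add]
    have h2 : (fun y => ((g y : ℤ) : ℚ) + Int.fract (h (y ^ (k + 1)))) = fun y => h (y ^ (k + 1)) := by
      funext y
      exact Int.floor_add_fract _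
    rw [h2]
    have h3 := md_hom h.toAddMonoidHom (fun y : R => y ^ (k + 1)) (k + 1) d x
    simp only [LinearMap.toAddMonoidHom_coe] at h3
    rw [h3, md_pow _ _ _ _ le_rfl, if_pos rfl, hd, hh]
  have e3 := abs_lt.1 (md_bound_rat (fun y => Int.fract (h (y ^ (k + 1))))
    (fun y => Int.fract_nonneg _) (fun y => Int.fract_lt_one _) k d x)
  have e4 : 0 < md g (k + 1) d x := by
    have : (0 : ℚ) < ((md g (k + 1) d x : ℤ) : ℚ) := by rw [e2]; linarith [e3.2]
    exact_mod_cast this
  have e5 : md g (k + 1) d x < 2 ^ (k + 1) := by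
    have : ((md g (k + 1) d x : ℤ) : ℚ) < 2 ^ (k + 1) := by
      rw [e2, pow_succ]; linarith [e3.1]
    exact_mod_cast this
  rw [ZMod.intCast_zmod_eq_zero_iff_dvd] at e1
  have := Int.le_of_dvd e4 e1
  push_cast at this
  omega

/-- **Characteristic `p > k`**, `k ≥ 2`. -/
theorem char_p {R : Type} [CommRing R] (p : ℕ) [Fact p.Prime] [Algebra (ZMod p) R] {l : R}
    (hl : l ≠ 0) (k : ℕ) (hk : 1 ≤ k) (hkp : k + 1 < p) :
    ∃ c : R → Fin (2 ^ (k + 1) + 1), ∀ (x : R) (d : Fin (k + 1) → R), ∏ i, d i = l →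
      ¬ ∀ S : Finset (Fin (k + 1)), c (x + ∑ i ∈ S, d i) = c x := by
  have hp : p.Prime := Fact.out
  have hp3 : 3 ≤ p := by omega
  have hodd : p % 2 = 1 := by
    rcases hp.eq_two_or_odd with h | h
    · omega
    · exact h
  obtain ⟨h, hh⟩ : ∃ h : R →ₗ[ZMod p] ZMod p, h (((k + 1).factorial : R) * l) =
      (((p - 1) / 2 : ℕ) : ZMod p) := by
    have h1 : ((k + 1).factorial : R) * l ≠ 0 := by
      intro h
      have h2 : ((k + 1).factorial : ZMod p) • l = 0 := by
        rw [Algebra.smul_def]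
        simpa using h
      rcases smul_eq_zero.1 h2 with h3 | h3
      · rw [ZMod.natCast_eq_zero_iff, hp.dvd_factorial] at h3
        omega
      · exact hl h3
    have h2 : ∃ φ : Module.Dual (ZMod p) R, φ (((k + 1).factorial : R) * l) ≠ 0 := by
      by_contra hcon
      push Not at hcon
      exact h1 ((Module.forall_dual_apply_eq_zero_iff (ZMod p) _).1 hcon)
    obtain ⟨φ, hφ⟩ := h2
    refine ⟨((((p - 1) / 2 : ℕ) : ZMod p) / φ (((k + 1).factorial : R) * l)) • φ, ?_⟩
    rw [LinearMap.smul_apply, smul_eq_mul]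
    field_simp
  have hpow : 0 < 2 ^ (k + 1) := by positivity
  obtain ⟨m, hm, hm'⟩ : ∃ m : ℕ, 2 ^ (k + 1) * m ≤ p - 2 ∧
      p - 2 < 2 ^ (k + 1) * m + 2 ^ (k + 1) := by
    refine ⟨(p - 2) / 2 ^ (k + 1), Nat.mul_div_le _ _, ?_⟩
    have := Nat.div_add_mod (p - 2) (2 ^ (k + 1))
    have := Nat.mod_lt (p - 2) hpow
    omega
  obtain ⟨ℓ, hℓ⟩ : ∃ ℓ, ℓ = m + 1 := ⟨_, rfl⟩
  have hcol : ∀ y : ZMod p, y.val / ℓ < 2 ^ (k + 1) + 1 := by
    intro y
    rw [Nat.div_lt_iff_lt_mul (by omega)]
    have h1 := ZMod.val_lt y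
    have h2 : (2 ^ (k + 1) + 1) * ℓ = (2 ^ (k + 1) * m + 2 ^ (k + 1)) + ℓ := by
      rw [hℓ]; ring
    rw [h2]
    omega
  refine ⟨fun y => ⟨(h (y ^ (k + 1))).val / ℓ, hcol _⟩, fun x d hd hS => ?_⟩
  set v : R → ℤ := fun y => ((h (y ^ (k + 1))).val : ℤ) with hv
  set rr : R → ℤ := fun y => (((h (y ^ (k + 1))).val % ℓ : ℕ) : ℤ) with hrr
  set q : ℤ := (((h (x ^ (k + 1))).val / ℓ : ℕ) : ℤ) with hq
  have e1 : md v (k + 1) d x = md rr (k + 1) d x := by
    have h1 : md v (k + 1) d x = md (fun y => (q * ℓ) + rr y) (k + 1) d x := by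
      apply md_congr
      intro S
      have h2 := hS S
      rw [Fin.mk.injEq] at h2
      simp only [hv, hq, hrr, ← h2]
      have h3 := Nat.div_add_mod (h ((x + ∑ i ∈ S, d i) ^ (k + 1))).val ℓ
      have h4 : (((h ((x + ∑ i ∈ S, d i) ^ (k + 1))).val : ℕ) : ℤ) =
        ((ℓ * ((h ((x + ∑ i ∈ S, d i) ^ (k + 1))).val / ℓ) +
          (h ((x + ∑ i ∈ S, d i) ^ (k + 1))).val % ℓ : ℕ) : ℤ) := by rw [h3]
      rw [h4]
      push_cast
      ring
    rw [h1, md_add, md_const, zero_add]
  have e2 : ((md v (k + 1) d x : ℤ) : ZMod p) = (((p - 1) / 2 : ℕ) : ZMod p) := by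
    have h1 := md_hom (Int.castAddHom (ZMod p)) v (k + 1) d x
    simp only [Int.coe_castAddHom] at h1
    rw [← h1]
    have h2 : (fun y => ((v y : ℤ) : ZMod p)) = fun y => h (y ^ (k + 1)) := by
      funext y
      simp [hv]
    rw [h2]
    have h3 := md_hom h.toAddMonoidHom (fun y : R => y ^ (k + 1)) (k + 1) d x
    simp only [LinearMap.toAddMonoidHom_coe] at h3
    rw [h3, md_pow _ _ _ _ le_rfl, if_pos rfl, hd, hh]
  have e3 := md_bound_int rr (ℓ - 1) (fun y => Int.natCast_nonneg _) (fun y => by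
    simp only [hrr]
    have := Nat.mod_lt (h (y ^ (k + 1))).val (show 0 < ℓ by omega)
    omega) k d x
  rw [← e1] at e3
  have e4 : ((2 : ℤ) ^ k * ((ℓ : ℤ) - 1)) * 2 ≤ p - 2 := by
    have h1 : ((ℓ : ℤ) - 1) = (m : ℤ) := by rw [hℓ]; push_cast; ring
    rw [h1]
    have h2 : ((2 ^ (k + 1) * m : ℕ) : ℤ) ≤ ((p - 2 : ℕ) : ℤ) := by
      exact_mod_cast hm
    rw [Nat.cast_sub (by omega), Nat.cast_mul] at h2
    have h3 : ((2 ^ (k + 1) : ℕ) : ℤ) = 2 ^ k * 2 := by push_cast; ring
    rw [h3] at h2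
    have h4 : ((2 : ℤ) ^ k * (m : ℤ)) * 2 = 2 ^ k * 2 * (m : ℤ) := by ring
    rw [h4]
    simpa using h2
  have e5 : (p : ℤ) ∣ md v (k + 1) d x - (((p - 1) / 2 : ℕ) : ℤ) := by
    rw [← ZMod.intCast_zmod_eq_zero_iff_dvd, Int.cast_sub, Int.cast_natCast, e2, sub_self]
  obtain ⟨m', hm1⟩ := e5
  rw [abs_le] at e3
  have hp2 : (((p - 1) / 2 : ℕ) : ℤ) * 2 = p - 1 := by
    have : (p - 1) / 2 * 2 = p - 1 := by omega
    have h1 : (((p - 1) / 2 * 2 : ℕ) : ℤ) = ((p - 1 : ℕ) : ℤ) := by rw [this]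
    rw [Nat.cast_sub (by omega)] at h1
    push_cast at h1 ⊢
    linarith
  generalize md v (k + 1) d x = N at *
  generalize (((p - 1) / 2 : ℕ) : ℤ) = t at *
  generalize (2 : ℤ) ^ k * ((ℓ : ℤ) - 1) = L at *
  have hpZ : (3 : ℤ) ≤ p := by exact_mod_cast hp3
  rcases lt_trichotomy m' 0 with hm0 | hm0 | hm0
  · have : (p : ℤ) * m' ≤ -p := by nlinarith
    linarith [e3.1, e3.2]
  · subst hm0
    linarith [e3.1, e3.2]
  · have : (p : ℤ) ≤ p * m' := by nlinarith
    linarith [e3.1, e3.2]

/-- **Characteristic 2**, `k = 2`: a `ℤ/4`-valued quadratic form. -/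
theorem char_two {R : Type} [CommRing R] [Algebra (ZMod 2) R] {l : R} (hl : l ≠ 0) :
    ∃ c : R → ZMod 4, ∀ x d e : R, d * e = l →
      ¬ (c (x + d) = c x ∧ c (x + e) = c x ∧ c (x + d + e) = c x) := by
  classical
  obtain ⟨h, hh⟩ : ∃ h : R →ₗ[ZMod 2] ZMod 2, h l = 1 := by
    have h2 : ∃ φ : Module.Dual (ZMod 2) R, φ l ≠ 0 := by
      by_contra hcon
      push Not at hcon
      exact hl ((Module.forall_dual_apply_eq_zero_iff (ZMod 2) _).1 hcon)
    obtain ⟨φ, hφ⟩ := h2
    refine ⟨φ, ?_⟩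
    generalize φ l = z at hφ
    revert z
    decide
  let b := Module.Basis.ofVectorSpace (ZMod 2) R
  let ι := Module.Basis.ofVectorSpaceIndex (ZMod 2) R
  let s : Module.Basis ι ℤ (ι →₀ ℤ) := Finsupp.basisSingleOne
  let β : ι → ι → ℤ := fun i j => ((h (b i * b j)).val : ℤ)
  let B : (ι →₀ ℤ) →ₗ[ℤ] (ι →₀ ℤ) →ₗ[ℤ] ℤ := s.constr ℤ fun i => s.constr ℤ fun j => β i j
  let π : (ι →₀ ℤ) →ₗ[ℤ] R := s.constr ℤ fun i => b i
  have Bs : ∀ i j, B (s i) (s j) = β i j := fun i j => by
    simp only [B, Module.Basis.constr_basis]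
  have πs : ∀ i, π (s i) = b i := fun i => by simp only [π, Module.Basis.constr_basis]
  have Bsymm : ∀ u w, B u w = B w u := by
    have : B = B.flip := by
      apply s.ext
      intro i
      apply s.ext
      intro j
      rw [LinearMap.flip_apply, Bs, Bs]
      simp only [β, mul_comm]
    intro u w
    conv_lhs => rw [this]
    rfl
  have Bmod : ∀ u w, ((B u w : ℤ) : ZMod 2) = h (π u * π w) := by
    let B1 : (ι →₀ ℤ) →ₗ[ℤ] (ι →₀ ℤ) →ₗ[ℤ] ZMod 2 :=
      LinearMap.mk₂ ℤ (fun u w => ((B u w : ℤ) : ZMod 2)) (by intros; simp) (by intros; simp)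
        (by intros; simp) (by intros; simp)
    let B2 : (ι →₀ ℤ) →ₗ[ℤ] (ι →₀ ℤ) →ₗ[ℤ] ZMod 2 :=
      LinearMap.mk₂ ℤ (fun u w => h (π u * π w)) (by intros; simp [add_mul])
        (by intro m u w; rw [map_smul, smul_mul_assoc]; exact map_zsmul h m _)
        (by intros; simp [mul_add])
        (by intro m u w; rw [map_smul, mul_smul_comm]; exact map_zsmul h m _)
    have : B1 = B2 := by
      apply s.ext
      intro i
      apply s.ext
      intro j
      simp only [B1, B2, LinearMap.mk₂_apply, Bs, πs, β]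
      simp
    intro u w
    have h1 := congrArg (fun f => f u w) this
    simpa only [B1, B2, LinearMap.mk₂_apply] using h1
  have πrepr : ∀ (u : ι →₀ ℤ) (i : ι), b.repr (π u) i = ((u i : ℤ) : ZMod 2) := by
    intro u i
    let f1 : (ι →₀ ℤ) →ₗ[ℤ] ZMod 2 :=
      { toFun := fun u => b.repr (π u) i, map_add' := by intros; simp,
        map_smul' := by
          intro m x
          change b.repr (π (m • x)) i = m • b.repr (π x) i
          rw [map_smul, map_zsmul]
          rfl }
    let f2 : (ι →₀ ℤ) →ₗ[ℤ] ZMod 2 :=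
      { toFun := fun u => ((u i : ℤ) : ZMod 2), map_add' := by intros; simp,
        map_smul' := by intros; simp }
    have : f1 = f2 := by
      apply s.ext
      intro j
      simp only [f1, f2, LinearMap.coe_mk, AddHom.coe_mk, πs, Module.Basis.repr_self]
      simp only [s, Finsupp.coe_basisSingleOne]
      by_cases hij : j = i
      · subst hij; simp
      · simp [Finsupp.single_eq_of_ne (Ne.symm hij)]
    exact congrArg (fun f => f u) this
  have πsurj : Function.Surjective π := by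
    intro x
    refine ⟨(b.repr x).mapRange (fun a => (a.val : ℤ)) (by simp), ?_⟩
    apply b.repr.injective
    ext i
    rw [πrepr]
    simp
  have Φmod : ∀ u w, π u = π w → ((B u u : ℤ) : ZMod 4) = ((B w w : ℤ) : ZMod 4) := by
    intro u w huw
    have h1 : ∀ i, (2 : ℤ) ∣ (u - w) i := by
      intro i
      have h2 := (ZMod.intCast_zmod_eq_zero_iff_dvd ((u - w) i) 2).1 (by
        rw [Finsupp.sub_apply, Int.cast_sub, ← πrepr, ← πrepr, huw, sub_self])
      exact_mod_cast h2
    obtain ⟨v, hv⟩ : ∃ v : ι →₀ ℤ, u = w + (2 : ℤ) • v := by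
      refine ⟨(u - w).mapRange (fun a => a / 2) (by simp), ?_⟩
      ext i
      have h2 := h1 i
      simp only [Finsupp.add_apply, Finsupp.smul_apply, Finsupp.mapRange_apply, smul_eq_mul,
        Finsupp.sub_apply] at h2 ⊢
      omega
    rw [hv]
    simp only [map_add, map_smul, LinearMap.add_apply, LinearMap.smul_apply, smul_eq_mul]
    rw [Bsymm v w]
    have : B w w + 2 * B w v + 2 * (B w v + 2 * B v v) = B w w + 4 * (B w v + B v v) := by ring
    rw [this]
    push_cast
    have h4 : (4 : ZMod 4) = 0 := by decide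
    rw [h4, zero_mul, add_zero]
  choose g hg using πsurj
  refine ⟨fun x => ((B (g x) (g x) : ℤ) : ZMod 4), fun x d e hde hc => ?_⟩
  obtain ⟨c1, c2, c3⟩ := hc
  simp only at c1 c2 c3
  rw [Φmod (g (x + d)) (g x + g d) (by rw [map_add, hg, hg, hg])] at c1
  rw [Φmod (g (x + e)) (g x + g e) (by rw [map_add, hg, hg, hg])] at c2
  rw [Φmod (g (x + d + e)) (g x + g d + g e) (by rw [map_add, map_add, hg, hg, hg, hg])] at c3
  have h1 : (((2 * B (g d) (g e) : ℤ)) : ZMod 4) = 0 := by
    have h2 : 2 * B (g d) (g e) = B (g x + g d + g e) (g x + g d + g e) -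
        B (g x + g d) (g x + g d) - B (g x + g e) (g x + g e) + B (g x) (g x) := by
      simp only [map_add, LinearMap.add_apply]
      rw [Bsymm (g d) (g x), Bsymm (g e) (g x), Bsymm (g e) (g d)]
      ring
    rw [h2]
    push_cast
    rw [c1, c2, c3]
    ring
  have h3 := Bmod (g d) (g e)
  rw [hg, hg, hde, hh] at h3
  rw [ZMod.intCast_zmod_eq_zero_iff_dvd] at h1
  have h4 : ((B (g d) (g e) : ℤ) : ZMod 2) = 0 := by
    rw [ZMod.intCast_zmod_eq_zero_iff_dvd]
    push_cast at h1 ⊢
    omega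
  rw [h4] at h3
  exact absurd h3 (by decide)

end Pool.Agent.KS6_67.PC
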